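import Mathlib

set_option autoImplicit false

namespace Pool.Agent.Results.MP_1619cf_an.TraceInf

open Matrix

/-- The trace norm (Schatten 1-norm) of a complex `N × M` matrix: the sum of its singular values
(those with index `≥ M` vanish). -/
noncomputable def traceNorm {N M : ℕ} (X : Matrix (Fin N) (Fin M) ℂ) : ℝ :=
  ∑ i ∈ Finset.range M, (Matrix.toEuclideanLin X).singularValues i

/-- `D₂(X,Y) = ‖X‖₁ + ‖Y‖₁ - ‖X+Y‖₁`. -/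
noncomputable def D2 {N M : ℕ} (X Y : Matrix (Fin N) (Fin M) ℂ) : ℝ :=
  traceNorm X + traceNorm Y - traceNorm (X + Y)

/-- `D₃(X,Y,Z) = ‖X‖₁ + ‖Y‖₁ + ‖Z‖₁ - ‖X+Y+Z‖₁`. -/
noncomputable def D3 {N M : ℕ} (X Y Z : Matrix (Fin N) (Fin M) ℂ) : ℝ :=
  traceNorm X + traceNorm Y + traceNorm Z - traceNorm (X + Y + Z)

lemma sv {m n : ℕ} (A : Matrix (Fin m) (Fin n) ℂ) (i : Fin (Fintype.card (Fin n))) :
    (toEuclideanLin A).singularValues i ^ 2 =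
      (isHermitian_conjTranspose_mul_self A).eigenvalues₀ i := by
  rw [LinearMap.sq_singularValues_fin _ finrank_euclideanSpace i]
  unfold IsHermitian.eigenvalues₀
  congr 1
  rw [← toEuclideanLin_conjTranspose_eq_adjoint]
  exact (toLpLin_mul 2 2 2 Aᴴ A).symm

lemma tn (A : Matrix (Fin 3) (Fin 2) ℂ) (t d : ℝ) (ht : trace (Aᴴ * A) = t)
    (hd : det (Aᴴ * A) = d) : traceNorm A = √(t + 2 * √d) := by
  have h1 := (isHermitian_conjTranspose_mul_self A).trace_eq_sum_eigenvalues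
  have h2 := (isHermitian_conjTranspose_mul_self A).det_eq_prod_eigenvalues
  set s := (toEuclideanLin A).singularValues with hs
  have e1 : ∑ i, (isHermitian_conjTranspose_mul_self A).eigenvalues i = s 0 ^ 2 + s 1 ^ 2 := by
    unfold IsHermitian.eigenvalues
    rw [Equiv.sum_comp _ (isHermitian_conjTranspose_mul_self A).eigenvalues₀]
    simp only [← sv]
    rw [Fin.sum_univ_eq_sum_range (fun i => s i ^ 2)]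
    simp [Finset.sum_range_succ]
  have e2 : ∏ i, (isHermitian_conjTranspose_mul_self A).eigenvalues i = s 0 ^ 2 * s 1 ^ 2 := by
    unfold IsHermitian.eigenvalues
    rw [Equiv.prod_comp _ (isHermitian_conjTranspose_mul_self A).eigenvalues₀]
    simp only [← sv]
    rw [Fin.prod_univ_eq_prod_range (fun i => s i ^ 2)]
    simp [Finset.prod_range_succ]
  have f1 : t = s 0 ^ 2 + s 1 ^ 2 := by
    rw [← e1]; apply Complex.ofReal_injective; rw [← ht, h1]; simp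
  have f2 : d = (s 0 * s 1) ^ 2 := by
    rw [mul_pow, ← e2]; apply Complex.ofReal_injective; rw [← hd, h2]; simp
  have p0 : 0 ≤ s 0 := LinearMap.singularValues_nonneg _ _
  have p1 : 0 ≤ s 1 := LinearMap.singularValues_nonneg _ _
  rw [f2, Real.sqrt_sq (by positivity), f1,
    show s 0 ^ 2 + s 1 ^ 2 + 2 * (s 0 * s 1) = (s 0 + s 1) ^ 2 by ring,
    Real.sqrt_sq (by positivity)]
  simp [traceNorm, Finset.sum_range_succ, hs]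

lemma tn' (a b c d x : ℝ) : traceNorm (!![(a : ℂ), b; c, d; x, x]) =
    √((a ^ 2 + b ^ 2 + c ^ 2 + d ^ 2 + 2 * x ^ 2) +
      2 * √((a ^ 2 + c ^ 2 + x ^ 2) * (b ^ 2 + d ^ 2 + x ^ 2) - (a * b + c * d + x ^ 2) ^ 2)) := by
  apply tn
  · simp [Matrix.trace, Matrix.mul_apply, Fin.sum_univ_succ]; ring
  · simp [det_fin_two, Matrix.mul_apply, Fin.sum_univ_succ]; ring

/-- No finite constant works in the Hlawka-type inequality for the trace norm: `C₁ = ∞`. -/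
theorem result (C : ℝ) (hC : 0 ≤ C) : ∃ X Y Z : Matrix (Fin 3) (Fin 2) ℂ,
    C * (D2 X Y + D2 X Z + D2 Y Z) < D3 X Y Z := by
  obtain ⟨e, he0, he1, heC⟩ : ∃ e : ℝ, 0 < e ∧ e ≤ 1 ∧ 20 * C * e < 1 := by
    refine ⟨1 / (20 * C + 1), by positivity, ?_, ?_⟩
    · rw [div_le_one (by positivity)]; linarith
    · rw [mul_one_div, div_lt_one (by positivity)]; linarith
  set x := √e with hx
  have hx2 : x ^ 2 = e := Real.sq_sqrt he0.le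
  refine ⟨!![((1 : ℝ) : ℂ), (0 : ℝ); (0 : ℝ), (0 : ℝ); (0 : ℝ), (0 : ℝ)],
    !![((0 : ℝ) : ℂ), (0 : ℝ); (0 : ℝ), (1 : ℝ); (0 : ℝ), (0 : ℝ)],
    !![((1 : ℝ) : ℂ), (1 : ℝ); (1 : ℝ), (1 : ℝ); x, x], ?_⟩
  have add : ∀ a b c d y a' b' c' d' y' : ℝ, (!![(a : ℂ), b; c, d; y, y] + !![(a' : ℂ), b'; c', d'; y', y'])
      = !![((a + a' : ℝ) : ℂ), (b + b' : ℝ); (c + c' : ℝ), (d + d' : ℝ); (y + y' : ℝ), (y + y' : ℝ)] := by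
    intros; ext i j; fin_cases i <;> fin_cases j <;> simp
  simp only [D2, D3, add, tn', zero_add, add_zero, hx2]
  have n1 : √((1:ℝ) ^ 2 + 0 ^ 2 + 0 ^ 2 + 0 ^ 2 + 2 * 0 ^ 2 +
      2 * √((1 ^ 2 + 0 ^ 2 + 0 ^ 2) * (0 ^ 2 + 0 ^ 2 + 0 ^ 2) - (1 * 0 + 0 * 0 + 0 ^ 2) ^ 2)) = 1 := by
    norm_num
  have n2 : √((0:ℝ) ^ 2 + 0 ^ 2 + 0 ^ 2 + 1 ^ 2 + 2 * 0 ^ 2 +
      2 * √((0 ^ 2 + 0 ^ 2 + 0 ^ 2) * (0 ^ 2 + 1 ^ 2 + 0 ^ 2) - (0 * 0 + 0 * 1 + 0 ^ 2) ^ 2)) = 1 := by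
    norm_num
  have n3 : √((1:ℝ) ^ 2 + 0 ^ 2 + 0 ^ 2 + 1 ^ 2 + 2 * 0 ^ 2 +
      2 * √((1 ^ 2 + 0 ^ 2 + 0 ^ 2) * (0 ^ 2 + 1 ^ 2 + 0 ^ 2) - (1 * 0 + 0 * 1 + 0 ^ 2) ^ 2)) = 2 := by
    rw [Real.sqrt_eq_iff_mul_self_eq_of_pos (by norm_num)]; norm_num
  have m0 : ((1:ℝ) ^ 2 + 1 ^ 2 + e) * (1 ^ 2 + 1 ^ 2 + e) - (1 * 1 + 1 * 1 + e) ^ 2 = 0 := by ring
  have m1 : (((1:ℝ) + 1) ^ 2 + 1 ^ 2 + e) * (1 ^ 2 + 1 ^ 2 + e) - ((1 + 1) * 1 + 1 * 1 + e) ^ 2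
      = 1 + e := by ring
  have m2 : ((1:ℝ) ^ 2 + 1 ^ 2 + e) * (1 ^ 2 + (1 + 1) ^ 2 + e) - (1 * 1 + 1 * (1 + 1) + e) ^ 2
      = 1 + e := by ring
  have m3 : (((1:ℝ) + 1) ^ 2 + 1 ^ 2 + e) * (1 ^ 2 + (1 + 1) ^ 2 + e) -
      ((1 + 1) * 1 + 1 * (1 + 1) + e) ^ 2 = 9 + 2 * e := by ring
  rw [n1, n2, n3, m0, m1, m2, m3, Real.sqrt_zero]
  have q1 : 1 + e / 2 - e ^ 2 / 8 ≤ √(1 + e) := Real.le_sqrt_of_sq_le (by nlinarith [pow_pos he0 3, pow_pos he0 2, mul_le_mul_of_nonneg_left he1 (pow_pos he0 3).le])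
  have q2 : √(9 + 2 * e) ≤ 3 + e / 3 := Real.sqrt_le_iff.2 ⟨by positivity, by nlinarith⟩
  have a1 : √((1:ℝ) ^ 2 + 1 ^ 2 + 1 ^ 2 + 1 ^ 2 + 2 * e + 2 * 0) ≤ 2 + e / 2 :=
    Real.sqrt_le_iff.2 ⟨by positivity, by nlinarith⟩
  have a2 : 2 + e / 2 - e ^ 2 / 16 ≤ √((1:ℝ) ^ 2 + 1 ^ 2 + 1 ^ 2 + 1 ^ 2 + 2 * e + 2 * 0) :=
    Real.le_sqrt_of_sq_le (by nlinarith [pow_pos he0 3, pow_pos he0 2, mul_le_mul_of_nonneg_left he1 (pow_pos he0 3).le])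
  have b1 : 3 + e / 2 - e ^ 2 ≤
      √(((1:ℝ) + 1) ^ 2 + 1 ^ 2 + 1 ^ 2 + 1 ^ 2 + 2 * e + 2 * √(1 + e)) :=
    Real.le_sqrt_of_sq_le (by nlinarith [pow_pos he0 3, pow_pos he0 2, mul_le_mul_of_nonneg_left he1 (pow_pos he0 3).le])
  have b2 : 3 + e / 2 - e ^ 2 ≤
      √((1:ℝ) ^ 2 + 1 ^ 2 + 1 ^ 2 + (1 + 1) ^ 2 + 2 * e + 2 * √(1 + e)) :=
    Real.le_sqrt_of_sq_le (by nlinarith [pow_pos he0 3, pow_pos he0 2, mul_le_mul_of_nonneg_left he1 (pow_pos he0 3).le])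
  have c1 : √(((1:ℝ) + 1) ^ 2 + 1 ^ 2 + 1 ^ 2 + (1 + 1) ^ 2 + 2 * e + 2 * √(9 + 2 * e)) ≤ 4 + e / 3 :=
    Real.sqrt_le_iff.2 ⟨by positivity, by nlinarith⟩
  generalize √((1:ℝ) ^ 2 + 1 ^ 2 + 1 ^ 2 + 1 ^ 2 + 2 * e + 2 * 0) = a at *
  generalize √(((1:ℝ) + 1) ^ 2 + 1 ^ 2 + 1 ^ 2 + 1 ^ 2 + 2 * e + 2 * √(1 + e)) = b at *
  generalize √((1:ℝ) ^ 2 + 1 ^ 2 + 1 ^ 2 + (1 + 1) ^ 2 + 2 * e + 2 * √(1 + e)) = b' at *
  generalize √(((1:ℝ) + 1) ^ 2 + 1 ^ 2 + 1 ^ 2 + (1 + 1) ^ 2 + 2 * e + 2 * √(9 + 2 * e)) = c at *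
  have hS : 1 + 1 - 2 + (1 + a - b) + (1 + a - b') ≤ 2 * e ^ 2 := by linarith
  have h1 := mul_le_mul_of_nonneg_left hS hC
  have h2 := mul_lt_mul_of_pos_right heC he0
  have h3 := mul_le_mul_of_nonneg_left he1 he0.le
  nlinarith

end Pool.Agent.Results.MP_1619cf_an.TraceInf
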